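import Pool.Agent.H82.LB.Targets3
import Pool.Agent.H49.G.BAS

/-!
Row LNT of lmb_modules (MP_ee74d2_an): the trivial bound for the non-narrow points.
-/

set_option autoImplicit false

namespace Pool.Agent.H1.LB

open MeasureTheory Set
open scoped ENNReal NNReal RealInnerProductSpace
open Pool.Agent.H83.G Pool.Agent.H82.LB
open Pool.Agent.H82.G4 (aw uk SX T_SXF)

theorem sumsq {m : ℕ} (hPUS : T_PUS) {β : E m → ℂ} (hβ : IsPU β) {s : ℝ} (hs : 0 < s)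
    (J : Finset (Fin m → ℤ)) (x : E m) :
    ∑ k ∈ J, ‖β (s⁻¹ • (x - ctr s k))‖ ^ 2 ≤ 1 := by
  have h1 := ((hPUS m).1 β s hβ hs).1 x
  have h2 : ∀ y : E m, 0 ≤ (β y).re ∧ ‖β y‖ ^ 2 ≤ (β y).re := by
    intro y
    obtain ⟨r, hr0, hr1, hr⟩ := hβ.2.2.1 y
    rw [hr, Complex.norm_real, Real.norm_eq_abs, abs_of_nonneg hr0, Complex.ofReal_re]
    exact ⟨hr0, by nlinarith⟩
  have h3 := Complex.hasSum_re h1
  rw [Complex.one_re] at h3
  calc ∑ k ∈ J, ‖β (s⁻¹ • (x - ctr s k))‖ ^ 2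
      ≤ ∑ k ∈ J, (β (s⁻¹ • (x - ctr s k))).re := Finset.sum_le_sum fun k _ => (h2 _).2
    _ ≤ 1 := sum_le_hasSum J (fun k _ => (h2 _).1) h3

theorem intsum {m : ℕ} (hPUS : T_PUS) (hCPS : T_CPS) {β : E m → ℂ} (hβ : IsPU β) {s : ℝ}
    (hs : 0 < s) (J : Finset (Fin m → ℤ)) {G : Z m → ℂ} (hG : TC G)
    (hG4 : ∀ ζ, G ζ ≠ 0 → 1 / 4 ≤ ζ.1) :
    ∑ k ∈ J, ∫ ζ, ‖cp β (ctr s k) s ζ * G ζ‖ ^ 2 ≤ ∫ ζ, ‖G ζ‖ ^ 2 := by
  have hint : ∀ F : Z m → ℂ, TC F → Integrable fun ζ => ‖F ζ‖ ^ 2 := by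
    intro F hF
    refine Continuous.integrable_of_hasCompactSupport (hF.1.continuous.norm.pow 2) ?_
    exact hF.2.comp_left (g := fun z : ℂ => ‖z‖ ^ 2) (by simp)
  have h1 : ∀ k ∈ J, Integrable fun ζ => ‖cp β (ctr s k) s ζ * G ζ‖ ^ 2 := fun k _ =>
    hint _ (hCPS m β (ctr s k) s G hβ.1 hs hG hG4)
  rw [← integral_finsetSum J h1]
  refine integral_mono (integrable_finsetSum J h1) (hint G hG) fun ζ => ?_
  have h2 := sumsq hPUS hβ hs J (ζ.1⁻¹ • ζ.2.1)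
  have h3 : ∑ k ∈ J, ‖cp β (ctr s k) s ζ * G ζ‖ ^ 2 =
      (∑ k ∈ J, ‖β (s⁻¹ • (ζ.1⁻¹ • ζ.2.1 - ctr s k))‖ ^ 2) * ‖G ζ‖ ^ 2 := by
    rw [Finset.sum_mul]
    refine Finset.sum_congr rfl fun k _ => ?_
    rw [norm_mul, mul_pow]
    rfl
  show ∑ k ∈ J, ‖cp β (ctr s k) s ζ * G ζ‖ ^ 2 ≤ ‖G ζ‖ ^ 2
  rw [h3]
  have h4 : 0 ≤ ‖G ζ‖ ^ 2 := by positivity
  nlinarith

/-- number of separated points in a cell -/
theorem cell_card (hCBN : T_CBN) (hWT3 : T_WT3) : ∃ C : ℝ, 1 ≤ C ∧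
    ∀ (ρ : ℝ) (X : Finset (Z 2)) (j : Zi 2), 1 ≤ ρ → Sep X → (∀ z ∈ X, cb ρ z = j) →
    (X.card : ℝ) ≤ C * ρ ^ 4 := by
  classical
  obtain ⟨hc1, -, CB, hCB, hc3, -⟩ := hCBN 2
  obtain ⟨CW, -, -, -, hw4, -⟩ := hWT3 2 5 (by norm_num)
  obtain ⟨n, hn⟩ := exists_nat_ge ((CW : ℝ) * 4 ^ 5)
  refine ⟨((n : ℝ) + 1) * (CB * 6 ^ 4), ?_, ?_⟩
  · have : (1 : ℝ) ≤ (n : ℝ) + 1 := by linarith [n.cast_nonneg (α := ℝ)]
    nlinarith
  intro ρ X j hρ hX hj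
  have hfib : ∀ a ∈ X.image (cb 1), (X.filter fun z => cb 1 z = a).card ≤ n := by
    intro a _
    set Y := X.filter fun z => cb 1 z = a with hY
    have hYs : Sep Y := fun z hz z' hz' hne =>
      hX z (Finset.mem_filter.1 hz).1 z' (Finset.mem_filter.1 hz').1 hne
    have h1 := hw4 Y (zc a) hYs
    have h2 : ∀ z ∈ Y, ENNReal.ofReal ((4 ^ 5)⁻¹) ≤ ENNReal.ofReal (wt 5 (z - zc a)) := by
      intro z hz
      apply ENNReal.ofReal_le_ofReal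
      unfold wt
      apply inv_anti₀ (by positivity)
      have h3 := hc1 1 z one_pos
      rw [(Finset.mem_filter.1 hz).2, one_smul] at h3
      norm_num at h3
      gcongr
      linarith
    have h4 : ENNReal.ofReal ((Y.card : ℝ) * (4 ^ 5)⁻¹) ≤ ENNReal.ofReal CW := by
      rw [ENNReal.ofReal_coe_nnreal]
      refine le_trans ?_ h1
      rw [ENNReal.ofReal_mul (Nat.cast_nonneg _), ENNReal.ofReal_natCast, ← nsmul_eq_mul]
      exact Finset.card_nsmul_le_sum _ _ _ h2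
    have h5 := (ENNReal.ofReal_le_ofReal_iff CW.coe_nonneg).1 h4
    have h6 : (Y.card : ℝ) ≤ n := by
      rw [← div_eq_mul_inv, div_le_iff₀ (by positivity)] at h5
      linarith
    exact_mod_cast h6
  have h1 : (X.card : ℝ) ≤ (n : ℝ) * (X.image (cb 1)).card := by
    have := Finset.card_le_mul_card_image (s := X) (f := cb 1) n hfib
    exact_mod_cast this
  have h2 : ((X.image (cb 1)).card : ℝ) ≤ CB * (6 * ρ) ^ (2 + 2) := by
    refine hc3 (6 * ρ) (ρ • zc j) _ (by linarith) ?_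
    intro a ha
    obtain ⟨z, hz, rfl⟩ := Finset.mem_image.1 ha
    have h3 := hc1 1 z one_pos
    have h4 := hc1 ρ z (by linarith)
    rw [hj z hz] at h4
    rw [one_smul] at h3
    norm_num at h3 h4
    calc ‖zc (cb 1 z) - ρ • zc j‖ = ‖(z - ρ • zc j) - (z - zc (cb 1 z))‖ := by
          congr 1
          abel
      _ ≤ ‖z - ρ • zc j‖ + ‖z - zc (cb 1 z)‖ := norm_sub_le _ _
      _ ≤ 6 * ρ := by linarith
  have h0 : (0 : ℝ) ≤ CB * (6 * ρ) ^ (2 + 2) := by positivity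
  calc (X.card : ℝ) ≤ n * (CB * (6 * ρ) ^ (2 + 2)) := h1.trans (by gcongr)
    _ ≤ ((n : ℝ) + 1) * (CB * (6 * ρ) ^ (2 + 2)) := by nlinarith
    _ = _ := by ring

theorem pf_LNT (hSXF : T_SXF) (hSPW : T_SPW) (hPLN : T_PLN) (hPUS : T_PUS) (hCPS : T_CPS)
    (hCBN : T_CBN) (hWT3 : T_WT3) : T_LNT := by
  classical
  intro N β hN hβ
  obtain ⟨C1, hC1, hcell⟩ := cell_card hCBN hWT3
  obtain ⟨C2, hC2, hsxf⟩ := hSXF 2 N 2 (by omega) (by norm_num)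
  obtain ⟨C3, hspw⟩ := hSPW 2 0 20 2 1 (by norm_num) (by norm_num)
  refine ⟨C1 * (C2 * C3) + 1, by
    have : (0 : ℝ) ≤ C1 * (C2 * C3) := by positivity
    linarith, ?_⟩
  intro κ R K H n G X hκ hκ' hR hK hH hTC hRg hX hnar
  have hK0 : 0 < K := by linarith
  have hK6 : 1 ≤ K ^ 6 := one_le_pow₀ hK
  have hK6i : 0 < (K ^ 6)⁻¹ := by positivity
  -- a significant cap for every point
  have hsig : ∀ z ∈ X, ∃ k ∈ Ks 2 (K ^ 6)⁻¹,
      ENNReal.ofReal (K ^ (-100 : ℤ) * H) ≤ aw N (K ^ 6) 0 (uk β (K ^ 6) G k)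
        (cb ((K ^ 6) ^ 2) z) := by
    intro z hz
    by_contra hcon
    push Not at hcon
    apply hnar z hz
    refine ⟨fun _ => (1, 0, 0), fun j h => one_ne_zero (congrArg Prod.fst h), ?_⟩
    intro k hk hle
    exact absurd hle (not_le.2 (hcon k hk))
  have hsup : ∀ ζ, G ζ ≠ 0 → 1 / 4 ≤ ζ.1 := fun ζ hζ => by
    have := (hRg ζ hζ).1
    linarith
  -- the energy of one piece
  have hpiece : ∀ k : Fin 2 → ℤ, SX 2 (uk β (K ^ 6) G k) ≤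
      ENNReal.ofReal (C3 * ∫ ζ, ‖cp β (ctr (K ^ 6)⁻¹ k) (K ^ 6)⁻¹ ζ * G ζ‖ ^ 2) := by
    intro k
    have hF : TC (fun ζ => cp β (ctr (K ^ 6)⁻¹ k) (K ^ 6)⁻¹ ζ * G ζ) :=
      hCPS 2 β _ _ G hβ.1 hK6i hTC hsup
    unfold SX
    refine iSup₂_le fun Y hY => ?_
    have h1 := hspw (fun ζ => cp β (ctr (K ^ 6)⁻¹ k) (K ^ 6)⁻¹ ζ * G ζ) Y (fun _ => 1) hF
      (fun ζ hζ => Pool.Agent.H49.G.BAS.norm_le_of_Rg hκ hκ' hR (hRg ζ (right_ne_zero_of_mul hζ)))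
      hY measurable_const (fun z z' => by simp)
    simp only [mul_one] at h1
    refine h1.trans (le_of_eq ?_)
    simp only [ENNReal.rpow_two]
    rw [(hPLN 2 _ hF).1, ENNReal.ofReal_mul C3.coe_nonneg, ENNReal.ofReal_coe_nnreal]
  -- all pieces
  set I : ℝ := ∫ ζ, ‖G ζ‖ ^ 2 with hI
  have hI0 : 0 ≤ I := integral_nonneg fun ζ => by positivity
  have htot : ∑ k ∈ Ks 2 (K ^ 6)⁻¹, SX 2 (uk β (K ^ 6) G k) ≤ ENNReal.ofReal (C3 * I) := by
    calc ∑ k ∈ Ks 2 (K ^ 6)⁻¹, SX 2 (uk β (K ^ 6) G k)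
        ≤ ∑ k ∈ Ks 2 (K ^ 6)⁻¹,
          ENNReal.ofReal (C3 * ∫ ζ, ‖cp β (ctr (K ^ 6)⁻¹ k) (K ^ 6)⁻¹ ζ * G ζ‖ ^ 2) :=
          Finset.sum_le_sum fun k _ => hpiece k
      _ = ENNReal.ofReal (C3 * ∑ k ∈ Ks 2 (K ^ 6)⁻¹,
          ∫ ζ, ‖cp β (ctr (K ^ 6)⁻¹ k) (K ^ 6)⁻¹ ζ * G ζ‖ ^ 2) := by
          rw [Finset.mul_sum, ENNReal.ofReal_sum_of_nonneg]
          intro k _
          exact mul_nonneg C3.coe_nonneg (integral_nonneg fun ζ => by positivity)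
      _ ≤ ENNReal.ofReal (C3 * I) := by
          apply ENNReal.ofReal_le_ofReal
          exact mul_le_mul_of_nonneg_left (intsum hPUS hCPS hβ hK6i _ hTC hsup) C3.coe_nonneg
  -- the cells
  set J : Finset (Zi 2) := X.image (cb ((K ^ 6) ^ 2)) with hJ
  set h : ℝ := K ^ (-100 : ℤ) * H with hh
  have hh0 : 0 < h := by positivity
  have hJc : (J.card : ℝ) * h ^ 2 ≤ C2 * (C3 * I) := by
    have h1 : ENNReal.ofReal ((J.card : ℝ) * h ^ 2) ≤ ENNReal.ofReal (C2 * (C3 * I)) := by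
      calc ENNReal.ofReal ((J.card : ℝ) * h ^ 2) = ∑ _j ∈ J, ENNReal.ofReal (h ^ 2) := by
            rw [Finset.sum_const, nsmul_eq_mul, ENNReal.ofReal_mul (Nat.cast_nonneg _),
              ENNReal.ofReal_natCast]
        _ ≤ ∑ j ∈ J, ∑ k ∈ Ks 2 (K ^ 6)⁻¹, aw N (K ^ 6) 0 (uk β (K ^ 6) G k) j ^ (2 : ℝ) := by
            refine Finset.sum_le_sum fun j hj => ?_
            obtain ⟨z, hz, rfl⟩ := Finset.mem_image.1 hj
            obtain ⟨k, hk, hle⟩ := hsig z hz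
            refine le_trans ?_ (Finset.single_le_sum (f := fun k => aw N (K ^ 6) 0
              (uk β (K ^ 6) G k) (cb ((K ^ 6) ^ 2) z) ^ (2 : ℝ)) (fun _ _ => zero_le) hk)
            simp only [ENNReal.rpow_two]
            rw [ENNReal.ofReal_pow hh0.le]
            gcongr
        _ = ∑ k ∈ Ks 2 (K ^ 6)⁻¹, ∑ j ∈ J, aw N (K ^ 6) 0 (uk β (K ^ 6) G k) j ^ (2 : ℝ) :=
            Finset.sum_comm
        _ ≤ ∑ k ∈ Ks 2 (K ^ 6)⁻¹, ENNReal.ofReal C2 * SX 2 (uk β (K ^ 6) G k) := by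
            refine Finset.sum_le_sum fun k _ => ?_
            refine (ENNReal.sum_le_tsum J).trans ?_
            have h2 := hsxf (K ^ 6) 0 (uk β (K ^ 6) G k) hK6 le_rfl
            rw [add_zero, one_pow, inv_one, mul_one] at h2
            exact h2
        _ ≤ ENNReal.ofReal C2 * ENNReal.ofReal (C3 * I) := by
            rw [← Finset.mul_sum]
            gcongr
        _ = ENNReal.ofReal (C2 * (C3 * I)) := by rw [ENNReal.ofReal_mul hC2.le]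
    exact (ENNReal.ofReal_le_ofReal_iff (by positivity)).1 h1
  -- the points
  have hXc : (X.card : ℝ) ≤ C1 * K ^ 48 * J.card := by
    have h1 : (X.card : ℝ) = ∑ j ∈ J, ((X.filter fun z => cb ((K ^ 6) ^ 2) z = j).card : ℝ) := by
      have := Finset.card_eq_sum_card_image (cb ((K ^ 6) ^ 2)) X
      exact_mod_cast this
    rw [h1]
    calc ∑ j ∈ J, ((X.filter fun z => cb ((K ^ 6) ^ 2) z = j).card : ℝ)
        ≤ ∑ _j ∈ J, C1 * K ^ 48 := by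
          refine Finset.sum_le_sum fun j _ => ?_
          refine (hcell ((K ^ 6) ^ 2) _ j (one_le_pow₀ hK6) (fun z hz z' hz' hne =>
            hX z (Finset.mem_filter.1 hz).1 z' (Finset.mem_filter.1 hz').1 hne)
            (fun z hz => (Finset.mem_filter.1 hz).2)).trans (le_of_eq ?_)
          ring
      _ = C1 * K ^ 48 * J.card := by
          rw [Finset.sum_const, nsmul_eq_mul]
          ring
  have hHh : H ^ 2 = K ^ 200 * h ^ 2 := by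
    rw [hh, mul_pow, ← zpow_natCast (K ^ (-100 : ℤ)) 2, ← zpow_mul]
    norm_num
    rw [← mul_assoc, mul_inv_cancel₀ (by positivity), one_mul]
  have hK250 : K ^ 248 ≤ K ^ 250 := pow_le_pow_right₀ hK (by norm_num)
  calc (X.card : ℝ) * H ^ 2 ≤ (C1 * K ^ 48 * J.card) * (K ^ 200 * h ^ 2) := by
        rw [hHh]
        gcongr
    _ = C1 * K ^ 248 * (J.card * h ^ 2) := by ring
    _ ≤ C1 * K ^ 248 * (C2 * (C3 * I)) := by gcongr
    _ = (C1 * (C2 * C3)) * K ^ 248 * I := by ring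
    _ ≤ (C1 * (C2 * C3) + 1) * K ^ 250 * I := by
        gcongr
        linarith

end Pool.Agent.H1.LB
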